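import Mathlib
import Pool.Agent.Helper160.NonNilpMain

set_option autoImplicit false

namespace Pool.Agent.Results.MP_3938c6_al.LieSeriesCase

/-- The derived series of the associative algebra `A`, regarded as a Lie algebra under
`[x, y] = x y - y x`: the zeroth term is `A` and the `(k+1)`-st is the linear span of all
commutators of elements of the `k`-th term. -/
def lieDerived (A : Type) [NonUnitalRing A] [Module ℚ A] : ℕ → Submodule ℚ A
  | 0 => ⊤
  | k + 1 => Submodule.span ℚ
      {c | ∃ x ∈ lieDerived A k, ∃ y ∈ lieDerived A k, c = x * y - y * x}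

/-- Let `A` be an associative algebra over the rationals of dimension greater than one in which
every proper subalgebra is nilpotent. If some term of the derived series of `A` as a Lie algebra
does not generate `A` as an associative algebra (for instance, if `A` is commutative, or Lie
soluble, or just not generated by its commutators), then `A` is nilpotent. -/
theorem result :
    ∀ (A : Type) [NonUnitalRing A] [Module ℚ A] [IsScalarTower ℚ A A] [SMulCommClass ℚ A A],
      1 < Module.rank ℚ A →
      (∀ B : NonUnitalSubalgebra ℚ A, B ≠ ⊤ →
        ∃ n : ℕ, ∀ a ∈ B, ∀ l : List A, (∀ x ∈ l, x ∈ B) → l.length = n →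
          l.foldl (fun x y => x * y) a = 0) →
      (∃ k : ℕ, NonUnitalAlgebra.adjoin ℚ (lieDerived A k : Set A) ≠ ⊤) →
      ∃ n : ℕ, ∀ a : A, ∀ l : List A, l.length = n → l.foldl (fun x y => x * y) a = 0 := by
  intro A _ _ _ _ hrank hprop hlie
  have heq : ∀ k, lieDerived A k = Pool.Agent.Helper160.NonNilp.lieDer A k := by
    intro k
    induction k with
    | zero => rfl
    | succ k ih =>
      change Submodule.span ℚ _ = Submodule.span ℚ _
      rw [ih]
  apply Pool.Agent.Helper160.NonNilp.main hrank hprop
  obtain ⟨k, hk⟩ := hlie
  exact ⟨k, by rw [← heq]; exact hk⟩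

end Pool.Agent.Results.MP_3938c6_al.LieSeriesCase
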